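import Pool.Agent.H791_Tri.Main

/-!
MP_071e18_gt, Q1: the formula `M(T) = csc (θ / 2)` is false.
-/

set_option autoImplicit false

open EuclideanGeometry
open scoped ENNReal Real

namespace Pool.Agent.Results.MP_071e18_gt.CongruentTriangles

open Pool.Agent.H791Tri

/-- (1) For every triangle `T` with vertices `A, B, C` in which the two sides at `B` are different,
`M(T) ≥ 1 + 2 (|BA| + |BC|) / |AC|`.
(2) Hence, for every triangle `T` without angle exceeding `2π/3`, with smallest angle `θ` at `B` and
with different sides at `B`, `M(T) > csc (θ / 2)`. -/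
theorem result :
    (∀ A B C : Pl, AffineIndependent ℝ ![A, B, C] → dist B A ≠ dist B C →
      ENNReal.ofReal (1 + 2 * (dist B A + dist B C) / dist A C) ≤ M (tri A B C)) ∧
    (∀ A B C : Pl, AffineIndependent ℝ ![A, B, C] → dist B A ≠ dist B C →
      ∠ C A B ≤ 2 * π / 3 → ∠ B C A ≤ 2 * π / 3 → smallestAngle A B C = ∠ A B C →
      ENNReal.ofReal (1 / Real.sin (smallestAngle A B C / 2)) < M (tri A B C)) := by
  refine ⟨bound, ?_⟩
  intro A B C h hne hA hC hs
  rw [hs]
  exact gt_csc A B C h hne hA hC

end Pool.Agent.Results.MP_071e18_gt.CongruentTriangles
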